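import Pool.Agent.Run7.h520.WO.I

/-! The set `U` (piece ARR of the project of MP_b29b59_lc). -/

set_option autoImplicit false

namespace Run7.h514.WO
open Run7.h520.WO

variable {M : Type} [LinearOrder M] {E : M → M → Prop} {d : M → M → M}

/-- `a` is to the left of `b`, in a different class. -/
def Lf (E : M → M → Prop) (a b : M) : Prop := a < b ∧ ¬ E a b

lemma Lf.le_right (hA : Ax E d) {a b c : M} (h : Lf E a b) (hbc : b ≤ c) : Lf E a c := by
  rcases hbc.lt_or_eq with hlt | rfl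
  · exact ⟨h.1.trans hlt, fun hE => h.2 (hA.cv a b c h.1 hlt hE)⟩
  · exact h

lemma Lf.le_left (hA : Ax E d) {a b c : M} (hab : a ≤ b) (h : Lf E b c) : Lf E a c := by
  rcases hab.lt_or_eq with hlt | rfl
  · refine ⟨hlt.trans h.1, fun hE => h.2 ?_⟩
    have h1 := hA.cv a b c hlt h.1 hE
    exact hA.tr _ _ _ (hA.sm _ _ h1) hE
  · exact h

lemma Lf.left_E (hA : Ax E d) {a a' b : M} (h : Lf E a b) (hE : E a a') : Lf E a' b := by
  have hn : ¬ E a' b := fun h' => h.2 (hA.tr _ _ _ hE h')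
  refine ⟨?_, hn⟩
  by_contra hc
  rcases (not_lt.1 hc).lt_or_eq with hlt | heq
  · exact h.2 (hA.cv a b a' h.1 hlt hE)
  · exact hn (heq ▸ hA.rf _)

/-- A point to the left. -/
lemma ex_bl (hX : Ext E d) (a : M) : ∃ x, x < a ∧ ¬ E a x := by
  obtain ⟨x, h1, h2, _⟩ := hX.l1 ∅ a
  exact ⟨x, h1, h2⟩

noncomputable def bl (hX : Ext E d) (a : M) : M := (ex_bl hX a).choose

lemma bl_spec (hA : Ax E d) (hX : Ext E d) (a : M) : Lf E (bl hX a) a :=
  ⟨(ex_bl hX a).choose_spec.1, fun h => (ex_bl hX a).choose_spec.2 (hA.sm _ _ h)⟩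

open Classical in
/-- A point at distance `y` on the right of `a`. -/
noncomputable def ex (E : M → M → Prop) (d : M → M → M) (a y : M) : M :=
  if h : ∃ x, E a x ∧ a < x ∧ d a x = y then h.choose else a

lemma ex_spec (hX : Ext E d) {a y : M} (h : Lf E y a) :
    E a (ex E d a y) ∧ a < ex E d a y ∧ d a (ex E d a y) = y := by
  have hh : ∃ x, E a x ∧ a < x ∧ d a x = y := by
    obtain ⟨x, h1, h2, h3, _⟩ := hX.r2 ∅ a y h.1 h.2
    exact ⟨x, h1, h2, h3⟩
  unfold ex
  rw [dif_pos hh]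
  exact hh.choose_spec

/-- The points `x k`. -/
noncomputable def xx (hX : Ext E d) (f : ℕ → M) : ℕ → M
  | 0 => f 0
  | k + 1 => bl hX (min (bl hX (xx hX f k)) (f k))

noncomputable def zz (hX : Ext E d) (f : ℕ → M) (k : ℕ) : M := bl hX (xx hX f k)

lemma zz_xx (hA : Ax E d) (hX : Ext E d) (f : ℕ → M) (k : ℕ) : Lf E (zz hX f k) (xx hX f k) :=
  bl_spec hA hX _

lemma xx_zz (hA : Ax E d) (hX : Ext E d) (f : ℕ → M) (k : ℕ) :
    Lf E (xx hX f (k + 1)) (zz hX f k) :=
  (bl_spec hA hX (min (zz hX f k) (f k))).le_right hA (min_le_left _ _)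

lemma xx_f (hA : Ax E d) (hX : Ext E d) (f : ℕ → M) (k : ℕ) :
    Lf E (xx hX f (k + 1)) (f k) :=
  (bl_spec hA hX (min (zz hX f k) (f k))).le_right hA (min_le_right _ _)

/-- The points `y (k + j) k`. -/
noncomputable def Y (hX : Ext E d) (f : ℕ → M) : ℕ → ℕ → M
  | 0, k => ex E d (xx hX f k) (zz hX f k)
  | j + 1, k => ex E d (xx hX f k) (Y hX f j (k + 1))

lemma Y_E (hA : Ax E d) (hX : Ext E d) (f : ℕ → M) : ∀ j k,
    E (xx hX f k) (Y hX f j k) ∧ xx hX f k < Y hX f j k
  | 0, k => by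
      have := ex_spec hX (zz_xx hA hX f k)
      exact ⟨this.1, this.2.1⟩
  | j + 1, k => by
      have h1 := (Y_E hA hX f j (k + 1)).1
      have h2 : Lf E (Y hX f j (k + 1)) (xx hX f k) :=
        ((xx_zz hA hX f k).left_E hA h1).le_right hA (zz_xx hA hX f k).1.le
      have := ex_spec hX h2
      exact ⟨this.1, this.2.1⟩

lemma Y_z (hA : Ax E d) (hX : Ext E d) (f : ℕ → M) (j k : ℕ) :
    Lf E (Y hX f j (k + 1)) (zz hX f k) :=
  (xx_zz hA hX f k).left_E hA (Y_E hA hX f j (k + 1)).1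

lemma Y_x (hA : Ax E d) (hX : Ext E d) (f : ℕ → M) (j k : ℕ) :
    Lf E (Y hX f j (k + 1)) (xx hX f k) :=
  (Y_z hA hX f j k).le_right hA (zz_xx hA hX f k).1.le

lemma Y_d0 (hA : Ax E d) (hX : Ext E d) (f : ℕ → M) (k : ℕ) :
    d (xx hX f k) (Y hX f 0 k) = zz hX f k :=
  (ex_spec hX (zz_xx hA hX f k)).2.2

lemma Y_d (hA : Ax E d) (hX : Ext E d) (f : ℕ → M) (j k : ℕ) :
    d (xx hX f k) (Y hX f (j + 1) k) = Y hX f j (k + 1) :=
  (ex_spec hX (Y_x hA hX f j k)).2.2

/-- Points on the right of `a`: the order and the distances. -/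
lemma lt_of_d (hA : Ax E d) {a p q : M} (h1 : E a p) (_h2 : a < p) (_h3 : E a q) (h4 : a < q)
    (h : d a p < d a q) : p < q := by
  by_contra hc
  rcases (not_lt.1 hc).lt_or_eq with hlt | heq
  · have := hA.dm a q p h4 hlt h1
    rw [this] at h
    exact absurd h (not_lt.2 (le_max_left _ _))
  · rw [heq] at h
    exact lt_irrefl _ h

lemma Y_anti (hA : Ax E d) (hX : Ext E d) (f : ℕ → M) : ∀ j k,
    Y hX f (j + 1) k < Y hX f j k
  | 0, k => by
      have h1 := Y_E hA hX f 1 k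
      have h2 := Y_E hA hX f 0 k
      refine lt_of_d hA h1.1 h1.2 h2.1 h2.2 ?_
      rw [Y_d hA hX f 0 k, Y_d0 hA hX f k]
      exact (Y_z hA hX f 0 k).1
  | j + 1, k => by
      have h1 := Y_E hA hX f (j + 2) k
      have h2 := Y_E hA hX f (j + 1) k
      refine lt_of_d hA h1.1 h1.2 h2.1 h2.2 ?_
      rw [Y_d hA hX f (j + 1) k, Y_d hA hX f j k]
      exact Y_anti hA hX f j (k + 1)

/-- The sets `W k`. -/
def W (hX : Ext E d) (f : ℕ → M) (k : ℕ) : Set M := {v | ∀ j, v < Y hX f j k}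

lemma V_eq (hA : Ax E d) (hX : Ext E d) (f : ℕ → M) : ∀ k, V E d (W hX f 0) k = W hX f k
  | 0 => rfl
  | k + 1 => by
      have ih := V_eq hA hX f k
      show {v | ∀ x ∈ V E d (W hX f 0) k, ∀ y, y ∉ V E d (W hX f 0) k → E x y → v < d x y} = _
      rw [ih]
      ext v
      constructor
      · intro hv j
        have h1 := Y_E hA hX f (j + 1) k
        have := hv (xx hX f k) (fun i => (Y_E hA hX f i k).2) (Y hX f (j + 1) k)
          (fun h => lt_irrefl _ (h (j + 1))) h1.1
        rwa [Y_d hA hX f j k] at this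
      · intro hv x hx y hy hE
        have hy' : ∃ j, Y hX f j k ≤ y := by
          by_contra hc
          push Not at hc
          exact hy hc
        obtain ⟨j, hj⟩ := hy'
        have hpy : Y hX f (j + 1) k < y := (Y_anti hA hX f j k).trans_le hj
        have hxp : x < Y hX f (j + 1) k := hx (j + 1)
        have hExp : E x (Y hX f (j + 1) k) := hA.cv _ _ _ hxp hpy hE
        have h1 := Y_E hA hX f (j + 1) k
        have hdm := hA.dm _ _ _ hxp hpy hE
        have hle : d x (Y hX f (j + 1) k) ≤ d x y := by rw [hdm]; exact le_max_left _ _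
        refine lt_of_lt_of_le ?_ hle
        have hvj : v < Y hX f j (k + 1) := hv j
        rcases lt_trichotomy x (xx hX f k) with hlt | heq | hgt
        · have := hA.dm _ _ _ hlt h1.2 hExp
          rw [this, Y_d hA hX f j k]
          exact lt_of_lt_of_le hvj (le_max_right _ _)
        · rw [heq, Y_d hA hX f j k]
          exact hvj
        · have e1 := hA.dm _ _ _ hgt hxp h1.1
          rw [Y_d hA hX f j k] at e1
          have h2 := Y_E hA hX f (j + 2) k
          have e2 := hA.dm _ _ _ hgt (hx (j + 2)) h2.1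
          rw [Y_d hA hX f (j + 1) k] at e2
          have h3 : d (xx hX f k) x < Y hX f j (k + 1) :=
            lt_of_le_of_lt (by rw [e2]; exact le_max_left _ _) (Y_anti hA hX f j (k + 1))
          rcases max_choice (d (xx hX f k) x) (d x (Y hX f (j + 1) k)) with hm | hm
          · rw [hm] at e1
            exact absurd h3 (by rw [e1]; exact lt_irrefl _)
          · rw [hm] at e1
            rw [← e1]
            exact hvj

theorem arr : S_ARR := by
  intro M _ E d hC hN hA hX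
  obtain ⟨f, hf⟩ := exists_surjective_nat M
  refine ⟨W hX f 0, ?_, ?_, ?_, ?_⟩
  · intro x y hy hxy j
    exact hxy.trans (hy j)
  · intro k
    rw [V_eq hA hX f k]
    exact ⟨xx hX f k, fun j => (Y_E hA hX f j k).2⟩
  · intro k v hv
    rw [V_eq hA hX f (k + 1)] at hv
    rw [V_eq hA hX f k]
    intro j
    exact (hv j).trans ((Y_x hA hX f j k).1.trans (Y_E hA hX f j k).2)
  · intro v
    obtain ⟨n, rfl⟩ := hf v
    refine ⟨n + 1, ?_⟩
    rw [V_eq hA hX f (n + 1)]
    intro hv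
    have h1 := (xx_f hA hX f n).left_E hA (Y_E hA hX f 0 (n + 1)).1
    exact absurd (hv 0) (not_lt.2 h1.1.le)

end Run7.h514.WO
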